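import Pool.Agent.H110.PG.A7

/-!
# MP_132384_an: projectional generators without the strengthened annihilator condition

There are a Banach space `X` and a norming subspace `Y` of `X*` such that every subspace `D` with
`Y ≤ D ≤ closure Y` (for instance `D = Y`, or the norm closed subspace `D = closure Y`) is the
domain of a projectional generator, but no countable valued `Φ` satisfies the strengthened condition
on `Y`; it already fails for a countable set `M ⊆ Y`.

The space is `ℓ₁(Υ)`, where `Υ` is a tree of height `θ + 1`: the nodes are the functions from an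
initial segment of a well-ordered set `W` of type `θ` to `{0, 1}`, and the full branches, where `θ`
is the least ordinal such that `2 ^ θ` is bigger than the continuum.  `Y` consists of the finite
linear combinations of the indicator functions of the sets `{s | s ≤ t}`, so that its closure is
`C₀(Υ)`, `Υ` being a locally compact scattered space.

* The generator: `Φ f` is the set of the unit vectors of a countable set `E` of nodes, such that each
  `s` with `f s ≠ 0` is below some `s' ∈ E` with `f s' = f s`.
* Failure of the strengthened condition: given `Φ`, pigeonhole (the tree has more branches than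
  nodes, and countable sets of levels are bounded) and a fusion argument give a node `e`, elements
  `i 0 < i 1 < ...` of the domain of `e` and different branches `f n` extending `e` such that each
  node in the support of an element of `Φ (u m)` is in finitely many of the intervals
  `(f n | i n, f n]`, where `u n` is the indicator function of this interval. A weak* cluster point
  of the averages of the `u n` annihilates all the sets `Φ (u m)`, but takes the value `1` at the
  unit vector of `e`.
-/

set_option autoImplicit false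

namespace Pool.Agent.Results.MP_132384_an.TreeGenerator

section definitions

variable {X : Type*} [NormedAddCommGroup X] [NormedSpace ℝ X]

/-- The weak* closure of a set of functionals. -/
def wsClosure (A : Set (StrongDual ℝ X)) : Set (StrongDual ℝ X) :=
  {f | StrongDual.toWeakDual f ∈ closure (StrongDual.toWeakDual '' A)}

/-- `S^⊥`: the functionals that vanish on `S`. -/
def ann (S : Set X) : Set (StrongDual ℝ X) := {f | ∀ x ∈ S, f x = 0}

/-- `D` is a norming subspace of the dual: `x ↦ sup {|f x| : f ∈ D, ‖f‖ ≤ 1}` is a norm equivalent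
to the norm of `X` (it is always at most `‖x‖`). -/
def Norming (D : Submodule ℝ (StrongDual ℝ X)) : Prop :=
  ∃ c > 0, ∀ x : X, c * ‖x‖ ≤ ⨆ f : {f : StrongDual ℝ X // f ∈ D ∧ ‖f‖ ≤ 1}, |f.1 x|

/-- `Φ(A)`, the union of the sets `Φ f`, `f ∈ A`. -/
def img (Φ : StrongDual ℝ X → Set X) (A : Set (StrongDual ℝ X)) : Set X := ⋃ f ∈ A, Φ f

/-- `(D, Φ)` is a projectional generator on `X` (only the values of `Φ` on `D` matter). -/
structure IsProjectionalGenerator (D : Submodule ℝ (StrongDual ℝ X))
    (Φ : StrongDual ℝ X → Set X) : Prop where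
  norming : Norming D
  countable : ∀ f ∈ D, (Φ f).Countable
  generator : ∀ A : Set (StrongDual ℝ X), A ⊆ D →
    (∃ L : Submodule ℝ (StrongDual ℝ X), closure A = L) → ann (img Φ A) ∩ wsClosure A = {0}

/-- The strengthened condition: `closure_{w*}(span M) ∩ Φ(M)^⊥ = {0}` for every `M ⊆ D`. -/
def Strengthened (D : Submodule ℝ (StrongDual ℝ X)) (Φ : StrongDual ℝ X → Set X) : Prop :=
  ∀ M : Set (StrongDual ℝ X), M ⊆ D →
    wsClosure (Submodule.span ℝ M : Set (StrongDual ℝ X)) ∩ ann (img Φ M) = {0}

end definitions

/-- There are a Banach space `X` and a subspace `Y ⊆ X*` such that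
(a) every `D` with `Y ≤ D ≤ closure Y` is the domain of a projectional generator;
(b) for every `Φ` with countable values on `Y` there is a countable `M ⊆ Y` with
`closure_{w*}(span M) ∩ Φ(M)^⊥ ≠ {0}`;
(c) hence for no such `D` there is a projectional generator `(D, Φ)` which satisfies the
strengthened condition. -/
theorem result : ∃ (X : Type) (_ : NormedAddCommGroup X) (_ : NormedSpace ℝ X)
    (_ : CompleteSpace X) (Y : Submodule ℝ (StrongDual ℝ X)),
    (∀ D : Submodule ℝ (StrongDual ℝ X), Y ≤ D → D ≤ Y.topologicalClosure →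
      ∃ Φ, IsProjectionalGenerator D Φ) ∧
    (∀ Φ : StrongDual ℝ X → Set X, (∀ f ∈ Y, (Φ f).Countable) →
      ∃ M : Set (StrongDual ℝ X), M.Countable ∧ M ⊆ Y ∧
        wsClosure (Submodule.span ℝ M : Set (StrongDual ℝ X)) ∩ ann (img Φ M) ≠ {0}) ∧
    (∀ D : Submodule ℝ (StrongDual ℝ X), Y ≤ D →
      ¬ ∃ Φ, IsProjectionalGenerator D Φ ∧ Strengthened D Φ) := by
  obtain ⟨W, i1, i2, hW⟩ := H110.PG.exists_good
  have hfail : ∀ Φ : StrongDual ℝ (H110.PG.L1 W) → Set (H110.PG.L1 W),
      (∀ f ∈ H110.PG.Y W, (Φ f).Countable) →
      ∃ M : Set (StrongDual ℝ (H110.PG.L1 W)), M.Countable ∧ M ⊆ H110.PG.Y W ∧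
        wsClosure (Submodule.span ℝ M : Set (StrongDual ℝ (H110.PG.L1 W))) ∩
          ann (img Φ M) ≠ {0} := by
    intro Φ hΦ
    obtain ⟨M, hM1, hM2, h, hh, hne⟩ := H110.PG.fail hW Φ hΦ
    refine ⟨M, hM1, hM2, fun heq => hne ?_⟩
    have h1 : h ∈ wsClosure (Submodule.span ℝ M : Set (StrongDual ℝ (H110.PG.L1 W))) ∩
      ann (img Φ M) := hh
    rw [heq] at h1
    exact h1
  refine ⟨H110.PG.L1 W, inferInstance, inferInstance, inferInstance, H110.PG.Y W, ?_, hfail, ?_⟩
  · intro D h1 h2
    obtain ⟨Φ, hΦ⟩ := H110.PG.exists_PG h1 h2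
    exact ⟨Φ, hΦ.norming, hΦ.countable, hΦ.gen⟩
  · rintro D hD ⟨Φ, hΦ, hs⟩
    obtain ⟨M, _, hM2, hne⟩ := hfail Φ fun f hf => hΦ.countable f (hD hf)
    exact hne (hs M (hM2.trans hD))

end Pool.Agent.Results.MP_132384_an.TreeGenerator
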